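import Pool.Agent.Helper98K9.CP.All

set_option autoImplicit false

/-!
# Canopy tree times `ℤ` against canopy tree times `ℕ`

Percolation on the canopy tree times `ℤ` gives the finite criterion `1 < μ` of the starting
library (`Helper98K9.CP`), which gives percolation on the canopy tree times `ℕ`.
-/

namespace Pool.Agent.T9h97.CPZ

open MeasureTheory ProbabilityTheory Filter Topology
open scoped ENNReal NNReal
open Pool.Agent.Helper98K9.CP
open Pool.Agent.Helper98K9.CP.FinL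

theorem WN_sub_WC : (WN : Set Vx) ⊆ WC := fun _ h => h.1

/-- uniform lower bound of the percolation probability in the canopy tree times `ℤ` -/
theorem thetaZ (hR : S_REIDX) {b : ℕ} (hb : 2 ≤ b) (p : ℝ≥0) (hp : p ≤ 1) (x : Vx) (a j : ℕ)
    (ha : x.1.1 = a) :
    (PP Ed p hp).real {ω | (cl b ω WC x).Infinite}
      ≤ (PP Ed p hp).real {ω | (cl b ω WC ((((a + j : ℕ) : ℤ), 0), 0)).Infinite} := by
  obtain ⟨σ, hσ, h1, h2⟩ := aut b hb x.1 (((a + j : ℕ) : ℤ), 0)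
  rw [← Bk2L.real_te hR p hp σ (-x.2) {ω | (cl b ω WC x).Infinite}]
  refine measureReal_mono ?_ (by finiteness)
  intro ω hω
  simp only [Set.mem_ofPred_eq] at hω ⊢
  rw [clInf_tr hσ] at hω
  have h3 : tr σ (-x.2) x = ((((a + j : ℕ) : ℤ), 0), 0) := by
    change (σ x.1, x.2 + -x.2) = _
    rw [h1]; simp
  rw [h3] at hω
  refine hω.mono (cl_mono ?_ fun e _ h => h)
  rintro _ ⟨y, hy, rfl⟩
  change 0 ≤ (σ y.1).1
  rw [h2, ha]
  have : 0 ≤ y.1.1 := hy
  push_cast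
  linarith

/-- percolation on canopy × `ℤ` gives a long connection with probability bounded below -/
theorem tauZ (hR : S_REIDX) (hH : S_HAR) (hM : S_MEAS) (hBK : S_BK)
    (b : ℕ) (hb : 2 ≤ b) (p : ℝ≥0) (hp : p ≤ 1) (hp0 : 0 < p) (x : Vx)
    (hx : 0 < (PP Ed p hp).real {ω | (cl b ω WC x).Infinite}) :
    ∃ a n : ℕ, 1 ≤ n ∧ 1 < (b : ℝ) ^ n * ((PP Ed p hp).real {ω | Cn b ω WC
      (((a : ℤ), 0), 0) ((((a + n : ℕ) : ℤ), 0), 0)}) ^ 2 := by
  have hxW : x ∈ WC := by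
    by_contra hxW
    have : {ω : Cf | (cl b ω WC x).Infinite} = ∅ := by
      ext ω
      simp only [Set.mem_ofPred_eq, Set.mem_empty_iff_false, iff_false]
      exact fun h => hxW (mem_of_infinite h)
    rw [this] at hx
    simp at hx
  obtain ⟨a, ha⟩ : ∃ a : ℕ, x.1.1 = a := ⟨x.1.1.toNat, (Int.toNat_of_nonneg hxW).symm⟩
  set θ := (PP Ed p hp).real {ω | (cl b ω WC x).Infinite} with hθ
  have hθ3 : 0 < θ ^ 3 / 3 := by positivity
  obtain ⟨n, hn⟩ : ∃ n : ℕ, 1 / (θ ^ 3 / 3) ^ 2 < (2 : ℝ) ^ n :=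
    pow_unbounded_of_one_lt _ (by norm_num)
  have hn' : ∀ m : ℕ, n ≤ m → ∀ r : ℝ, θ ^ 3 / 3 ≤ r → 1 < (b : ℝ) ^ m * r ^ 2 := by
    intro m hm r hr
    have h1 : (2 : ℝ) ^ n ≤ (b : ℝ) ^ m :=
      le_trans (pow_le_pow_right₀ (by norm_num) hm)
        (pow_le_pow_left₀ (by norm_num) (by exact_mod_cast hb) m)
    have h2 : (θ ^ 3 / 3) ^ 2 ≤ r ^ 2 := pow_le_pow_left₀ hθ3.le hr 2
    have h3 : 1 < (2 : ℝ) ^ n * (θ ^ 3 / 3) ^ 2 := by
      rwa [div_lt_iff₀ (by positivity)] at hn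
    calc (1 : ℝ) < (2 : ℝ) ^ n * (θ ^ 3 / 3) ^ 2 := h3
      _ ≤ (b : ℝ) ^ m * r ^ 2 := mul_le_mul h1 h2 (by positivity) (by positivity)
  set N := n + 1 with hN
  let y : ℕ → Vx := fun j => ((((a + j : ℕ) : ℤ), 0), 0)
  let E : ℕ → Set Cf := fun j => {ω | (cl b ω WC (y j)).Infinite}
  have hE : ∀ j, θ ≤ (PP Ed p hp).real (E j) := fun j => thetaZ hR hb p hp x a j ha
  have hEm : ∀ j, MeasurableSet (E j) := fun j => (hM b WC (y j) (y j)).2
  have hEi : ∀ j, Inc (E j) := fun j => inc_clInf WC (y j)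
  have hIn : ∀ A B : Set Cf, Inc A → Inc B → Inc (A ∩ B) :=
    fun A B hA hB ω ω' h h' => ⟨hA ω ω' h h'.1, hB ω ω' h h'.2⟩
  have h1 : θ ^ 2 ≤ (PP Ed p hp).real (E 0 ∩ E N) := by
    refine le_trans ?_ (hH Ed p hp (E 0) (E N) (hEm _) (hEm _) (hEi _) (hEi _))
    rw [sq]
    exact mul_le_mul (hE _) (hE _) hx.le measureReal_nonneg
  have h2 : θ ^ 3 ≤ (PP Ed p hp).real ((E 0 ∩ E N) ∩ E (2 * N)) := by
    refine le_trans ?_ (hH Ed p hp (E 0 ∩ E N) (E (2 * N)) ((hEm _).inter (hEm _)) (hEm _)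
      (hIn _ _ (hEi _) (hEi _)) (hEi _))
    rw [pow_succ]
    exact mul_le_mul h1 (hE _) hx.le measureReal_nonneg
  let C : ℕ → ℕ → Set Cf := fun i j => {ω | Cn b ω WC (y i) (y j)}
  have h3 : (E 0 ∩ E N) ∩ E (2 * N) ⊆ {ω | Three b WC ω} ∪ (C 0 N ∪ (C 0 (2 * N) ∪ C N (2 * N))) := by
    rintro ω ⟨⟨e0, e1⟩, e2⟩
    by_contra hcon
    simp only [Set.mem_union, not_or] at hcon
    obtain ⟨c0, c1, c2, c3⟩ := hcon
    apply c0
    refine ⟨![y 0, y N, y (2 * N)], ?_, ?_⟩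
    · intro k
      fin_cases k
      · exact e0
      · exact e1
      · exact e2
    · intro k l hkl hc
      fin_cases k <;> fin_cases l
      · exact hkl rfl
      · exact c1 hc
      · exact c2 hc
      · exact c1 hc.symm
      · exact hkl rfl
      · exact c3 hc
      · exact c2 hc.symm
      · exact c3 hc.symm
      · exact hkl rfl
  have h4 : θ ^ 3 ≤ (PP Ed p hp).real (C 0 N) + ((PP Ed p hp).real (C 0 (2 * N))
      + (PP Ed p hp).real (C N (2 * N))) := by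
    calc θ ^ 3 ≤ _ := h2
      _ ≤ (PP Ed p hp).real ({ω | Three b WC ω} ∪ (C 0 N ∪ (C 0 (2 * N) ∪ C N (2 * N)))) :=
          measureReal_mono h3 (by finiteness)
      _ ≤ (PP Ed p hp).real {ω | Three b WC ω} + ((PP Ed p hp).real (C 0 N)
            + ((PP Ed p hp).real (C 0 (2 * N)) + (PP Ed p hp).real (C N (2 * N)))) := by
          refine (measureReal_union_le _ _).trans ?_
          gcongr
          refine (measureReal_union_le _ _).trans ?_
          gcongr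
          exact measureReal_union_le _ _
      _ = _ := by rw [hBK b hb p hp hp0, zero_add]
  rcases le_or_gt (θ ^ 3 / 3) ((PP Ed p hp).real (C 0 N)) with h5 | h5
  · refine ⟨a, N, by omega, ?_⟩
    have := hn' N (by omega) _ h5
    simpa only [C, y, Set.mem_ofPred_eq, add_zero] using this
  · rcases le_or_gt (θ ^ 3 / 3) ((PP Ed p hp).real (C 0 (2 * N))) with h6 | h6
    · refine ⟨a, 2 * N, by omega, ?_⟩
      have := hn' (2 * N) (by omega) _ h6
      simpa only [C, y, Set.mem_ofPred_eq, add_zero] using this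
    · refine ⟨a + N, N, by omega, ?_⟩
      have h7 : θ ^ 3 / 3 ≤ (PP Ed p hp).real (C N (2 * N)) := by linarith
      have := hn' N (by omega) _ h7
      have e : a + N + N = a + 2 * N := by ring
      rw [e]
      exact this

/-- the all-open configuration connects `WC` -/
theorem conn_WC {b : ℕ} (hb : 2 ≤ b) {x y : Vx} (hx : x ∈ WC) (hy : y ∈ WC) :
    Cn b (fun _ => true) WC x y := by
  have hvert : ∀ (z : Vt) (h : ℤ) (n : ℕ), 0 ≤ z.1 →
      Cn b (fun _ => true) WC (z, h) (z, h + (n : ℤ)) := by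
    intro z h n hz
    induction n with
    | zero => rw [Nat.cast_zero, add_zero]; exact Cn.refl _ _ _
    | succ n ih =>
      refine ih.trans ?_
      have h2 : ((z, h + (n : ℤ)), true) ∈ edg b WC := by
        refine ⟨hz, ?_⟩
        change 0 ≤ (hd b ((z, h + (n : ℤ)), true)).1.1
        simpa [hd] using hz
      have h3 := Cn.edge (ω := fun _ => true) h2 rfl
      have h4 : hd b ((z, h + (n : ℤ)), true) = (z, h + ((n + 1 : ℕ) : ℤ)) := by
        simp [hd]; ring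
      rw [h4] at h3
      exact h3
  have key : ∀ u : Vx, u ∈ WC → ∃ v ∈ WN, Cn b (fun _ => true) WC u v := by
    rintro ⟨z, h⟩ hz
    refine ⟨(z, h + (h.natAbs : ℤ)), ⟨hz, ?_⟩, hvert z h h.natAbs hz⟩
    change 0 ≤ h + (h.natAbs : ℤ)
    omega
  obtain ⟨u, hu, h1⟩ := key x hx
  obtain ⟨v, hv, h2⟩ := key y hy
  exact (h1.trans ((conn_WN hb hu hv).mono WN_sub_WC fun _ _ h => h)).trans h2.symm

theorem pos_of_inf {b : ℕ} {p : ℝ≥0} (hp : p ≤ 1) {W : Set Vx} {x : Vx}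
    (hx : 0 < (PP Ed p hp).real {ω | (cl b ω W x).Infinite}) : 0 < p := by
  rcases eq_or_lt_of_le (zero_le : (0 : ℝ≥0) ≤ p) with h | h
  · exfalso
    subst h
    rw [FinL.zero x hp] at hx
    exact lt_irrefl _ hx
  · exact h

/-- percolation on canopy × ℤ gives the criterion -/
theorem critZ (b : ℕ) (hb : 2 ≤ b) (p : ℝ≥0) (hp : p ≤ 1)
    (x : Vx) (hx : 0 < (PP Ed p hp).real {ω | (cl b ω WC x).Infinite}) :
    ∃ K R : ℕ, 1 < mu b K R p hp := by
  have hp0 := pos_of_inf hp hx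
  obtain ⟨a, n, hn, h1⟩ := tauZ reidx har meas AllL.bk' b hb p hp hp0 x hx
  obtain ⟨M, R, hM, h2⟩ := fina b hb p hp a n h1
  obtain ⟨K, hK⟩ := AllL.chain' b hb p hp hp0 M R a n hn hM h2
  exact ⟨K, R, hK⟩

/-- the criterion gives percolation on canopy × ℕ, at every vertex -/
theorem critN (b : ℕ) (hb : 2 ≤ b) (K R : ℕ) (q : ℝ≥0) (hq : q ≤ 1)
    (hqmu : 1 < mu b K R q hq) :
    ∀ y ∈ WN, 0 < (PP Ed q hq).real {ω | (cl b ω WN y).Infinite} := by
  have h3 := AllL.can' b hb K R q hq hqmu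
  obtain ⟨y0, hy0⟩ := exists_pos h3
  have hq0 : 0 < q := pos_of_inf hq hy0
  have hy0W : y0 ∈ WN := by
    by_contra hcon
    have : {ω : Cf | (cl b ω WN y0).Infinite} = ∅ := by
      ext ω
      simp only [Set.mem_ofPred_eq, Set.mem_empty_iff_false, iff_false]
      exact fun h => hcon (mem_of_infinite h)
    rw [this] at hy0
    simp at hy0
  exact fun y hy => pos_all har meas hq0 (conn_WN hb hy hy0W) hy0

/-- the criterion is open -/
theorem crit_open (b : ℕ) (K R : ℕ) (p : ℝ≥0) (hp : p ≤ 1) (hp0 : 0 < p)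
    (hK : 1 < mu b K R p hp) : ∃ (q : ℝ≥0) (hq : q ≤ 1), q < p ∧ 1 < mu b K R q hq := by
  have hcont := AllL.muc' b K R
  let F : ℝ≥0 → {p : ℝ≥0 // p ≤ 1} := fun t => ⟨min t p, (min_le_right _ _).trans hp⟩
  have hF : Continuous F := by
    refine Continuous.subtype_mk ?_ _
    exact continuous_id.min continuous_const
  have hG : Continuous fun t : ℝ≥0 => mu b K R (F t).1 (F t).2 := hcont.comp hF
  have hGp : 1 < (fun t : ℝ≥0 => mu b K R (F t).1 (F t).2) p := by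
    simp only [F, min_self]; exact hK
  have hev : ∀ᶠ t in 𝓝 p, 1 < mu b K R (F t).1 (F t).2 :=
    (hG.continuousAt (x := p)).eventually (lt_mem_nhds hGp)
  have hne : (𝓝[<] p).NeBot := nhdsLT_neBot_of_exists_lt ⟨0, hp0⟩
  have hev2 : ∀ᶠ t in 𝓝[<] p, 1 < mu b K R (F t).1 (F t).2 := hev.filter_mono nhdsWithin_le_nhds
  obtain ⟨t, ht1, ht2⟩ := (hev2.and self_mem_nhdsWithin).exists
  have ht3 : t < p := ht2
  refine ⟨(F t).1, (F t).2, ?_, ht1⟩
  simp only [F]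
  exact lt_of_le_of_lt (min_le_left _ _) ht3

/-- if canopy × ℤ percolates at `p` then canopy × ℕ percolates at a smaller parameter -/
theorem main_canopyZ (b : ℕ) (hb : 2 ≤ b) (p : ℝ≥0) (hp : p ≤ 1)
    (x : Vx) (hx : 0 < (PP Ed p hp).real {ω | (cl b ω WC x).Infinite}) :
    ∃ (p' : ℝ≥0) (hp' : p' ≤ 1), p' < p ∧
      ∀ y ∈ WN, 0 < (PP Ed p' hp').real {ω | (cl b ω WN y).Infinite} := by
  obtain ⟨K, R, hK⟩ := critZ b hb p hp x hx
  obtain ⟨q, hq, hqp, hqmu⟩ := crit_open b K R p hp (pos_of_inf hp hx) hK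
  exact ⟨q, hq, hqp, critN b hb K R q hq hqmu⟩

/-- in the model: the two products percolate at the same parameters -/
theorem model_iff (b : ℕ) (hb : 2 ≤ b) (p : ℝ≥0) (hp : p ≤ 1) (x y : Vx) (hx : x ∈ WC)
    (hy : y ∈ WN) :
    0 < (PP Ed p hp).real {ω | (cl b ω WC x).Infinite} ↔
      0 < (PP Ed p hp).real {ω | (cl b ω WN y).Infinite} := by
  constructor
  · intro h
    obtain ⟨K, R, hK⟩ := critZ b hb p hp x h
    exact critN b hb K R p hp hK y hy
  · intro h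
    have h1 : 0 < (PP Ed p hp).real {ω | (cl b ω WC y).Infinite} := by
      refine lt_of_lt_of_le h (measureReal_mono ?_ (by finiteness))
      intro ω hω
      exact Set.Infinite.mono (cl_mono WN_sub_WC fun e _ h => h) hω
    exact pos_all har meas (pos_of_inf hp h) (conn_WC hb hx (WN_sub_WC hy)) h1

/-- the canopy tree times `ℤ` in the coded model -/
theorem emb_canopyZ (d : ℕ) :
    Emb (d - 1) (canopy d □ line) (fun x : (ℕ × ℕ) × ℤ => (((x.1.1 : ℤ), x.1.2), x.2))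
      WC where
  inj := by
    rintro ⟨⟨k, m⟩, h⟩ ⟨⟨k', m'⟩, h'⟩ hh
    simp only [Prod.mk.injEq, Nat.cast_inj] at hh ⊢
    exact hh
  rng := by
    ext ⟨⟨k, m⟩, h⟩
    simp only [Set.mem_range, Prod.mk.injEq, Prod.exists, WC, Set.mem_ofPred_eq]
    constructor
    · rintro ⟨k', m', h', ⟨rfl, rfl⟩, rfl⟩
      exact Int.natCast_nonneg _
    · intro h1
      exact ⟨k.toNat, m, h, ⟨Int.toNat_of_nonneg h1, rfl⟩, rfl⟩
  adj := by
    rintro ⟨⟨k, m⟩, h⟩ ⟨⟨k', m'⟩, h'⟩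
    simp only [SimpleGraph.boxProd_adj, canopy, line, SimpleGraph.fromRel_adj, hd, par,
      Bool.exists_bool, Prod.mk.injEq, ne_eq]
    simp
    constructor
    · rintro (⟨⟨h1, h2⟩, h3⟩ | ⟨⟨h1, h2⟩, h3, h4⟩)
      · rcases h2 with ⟨h2, h4⟩ | ⟨h2, h4⟩
        · left; left; exact ⟨⟨by omega, h4.symm⟩, h3⟩
        · left; right; exact ⟨⟨by omega, h4.symm⟩, h3.symm⟩
      · rcases h2 with h2 | h2
        · right; left; exact ⟨⟨h3, h4⟩, by omega⟩
        · right; right; exact ⟨⟨h3.symm, h4.symm⟩, by omega⟩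
    · rintro ((⟨⟨h1, h2⟩, h3⟩ | ⟨⟨h1, h2⟩, h3⟩) | (⟨⟨h1, h2⟩, h3⟩ | ⟨⟨h1, h2⟩, h3⟩))
      · left; exact ⟨⟨by omega, Or.inl ⟨by omega, h2.symm⟩⟩, h3⟩
      · left; exact ⟨⟨by omega, Or.inr ⟨by omega, h2.symm⟩⟩, h3.symm⟩
      · right; exact ⟨⟨by omega, Or.inl (by omega)⟩, h1, h2⟩
      · right; exact ⟨⟨by omega, Or.inr (by omega)⟩, h1.symm, h2.symm⟩

theorem pos_iff_real {A : Set Cf} {p : ℝ≥0} {hp : p ≤ 1} :
    0 < PP Ed p hp A ↔ 0 < (PP Ed p hp).real A := by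
  rw [Measure.real, ENNReal.toReal_pos_iff]
  exact ⟨fun h => ⟨h, measure_lt_top _ _⟩, fun h => h.1⟩

/-- the two products of the model percolate at the same parameters -/
theorem canopy_iff (d : ℕ) (hd : 3 ≤ d) (x : (ℕ × ℕ) × ℤ) (y : (ℕ × ℕ) × ℕ) (p : ℝ≥0) :
    0 < theta (canopy d □ line) x p ↔ 0 < theta (canopy d □ halfLine) y p := by
  have hb : 2 ≤ d - 1 := by omega
  rw [(emb_canopyZ d).theta_eq reidx x p, (emb_canopy d).theta_eq reidx y p, pos_iff_real,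
    pos_iff_real]
  exact model_iff (d - 1) hb _ _ _ _ ((emb_canopyZ d).rng ▸ ⟨x, rfl⟩)
    ((emb_canopy d).rng ▸ ⟨y, rfl⟩)

/-- **Main theorem**: the canopy tree times `ℤ` and the canopy tree times `ℕ` percolate at the
same parameters. -/
theorem same (d : ℕ) (hd : 3 ≤ d) (V : Type) (C : SimpleGraph V) (l : V → ℕ)
    (hC : IsCanopy d C l) (x : V × ℤ) (y : V × ℕ) (p : ℝ≥0) :
    0 < theta (C □ line) x p ↔ 0 < theta (C □ halfLine) y p := by
  obtain ⟨φ⟩ := caniso d hd V C l hC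
  have : Countable V := φ.toEquiv.injective.countable
  rw [(Pool.Agent.Helper80K9.CP.piso _ _ _ _ (boxIso φ line)).2 x p,
    (Pool.Agent.Helper80K9.CP.piso _ _ _ _ (boxIso φ halfLine)).2 y p]
  exact canopy_iff d hd _ _ p

theorem final (d : ℕ) (hd : 3 ≤ d) (V : Type) (C : SimpleGraph V) (l : V → ℕ)
    (hC : IsCanopy d C l) (x : V × ℤ) (y : V × ℕ) :
    pc (C □ line) x = pc (C □ halfLine) y ∧
      (∀ p : ℝ≥0, 0 < theta (C □ line) x p ↔ 0 < theta (C □ halfLine) y p) ∧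
      ∀ᵐ ω ∂(perc (C □ line) (pc (C □ line) x)), ∀ z, ¬ InfCl (C □ line) ω z := by
  have h1 := same d hd V C l hC x y
  have hpc : ∀ (x : V × ℤ) (y : V × ℕ), pc (C □ line) x = pc (C □ halfLine) y := by
    intro x y
    unfold pc
    simp only [same d hd V C l hC x y]
  refine ⟨hpc x y, h1, ?_⟩
  obtain ⟨φ⟩ := caniso d hd V C l hC
  have : Countable V := φ.toEquiv.injective.countable
  rw [ae_all_iff]
  intro z
  rw [ae_iff]
  simp only [not_not]
  have h2 := (canopy_final d hd V C l hC y).2.1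
  have h3 : ¬ 0 < theta (C □ line) z (pc (C □ line) x) := by
    rw [same d hd V C l hC z y, hpc x y, h2]
    exact lt_irrefl _
  exact nonpos_iff_eq_zero.1 (not_lt.1 h3)

end Pool.Agent.T9h97.CPZ
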